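import Mathlib

namespace Pool.Agent.Results.MP_9f168b_al.Sixteen

open Function

/-- Involutive non-degenerate solutions of the Yang-Baxter equation on a nonempty set. -/
def IsSol {X : Type} (r : X × X → X × X) : Prop :=
  Nonempty X ∧ Involutive r ∧ (∀ x, Bijective fun y => (r (x, y)).1) ∧
    (∀ y, Bijective fun x => (r (x, y)).2) ∧
    let r12 : X × X × X → X × X × X := fun p => ((r (p.1, p.2.1)).1, (r (p.1, p.2.1)).2, p.2.2)
    let r23 : X × X × X → X × X × X := fun p => (p.1, r p.2)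
    r12 ∘ r23 ∘ r12 = r23 ∘ r12 ∘ r23

/-- The permutation group generated by the maps `σ_x`. -/
def grp {X : Type} (r : X × X → X × X) : Subgroup (Equiv.Perm X) :=
  Subgroup.closure {g | ∃ x, ∀ y, g y = (r (x, y)).1}

/-- Simple solutions. -/
def IsSimple {X : Type} (r : X × X → X × X) : Prop :=
  Nontrivial X ∧ ∀ (X' : Type) (r' : X' × X' → X' × X') (f : X → X'), IsSol r' → Surjective f →
    Prod.map f f ∘ r = r' ∘ Prod.map f f → Bijective f ∨ Nat.card X' = 1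

/-- The sets `X_y` are blocks of imprimitivity. -/
def Blocks {Y Z : Type} (r : (Y × Z) × (Y × Z) → (Y × Z) × (Y × Z)) : Prop :=
  ∀ g ∈ grp r, ∀ y, ∃ y', g '' {p | p.1 = y} = {p | p.1 = y'}

/-- The maps `σ_x`. -/
def s : Fin 16 → Fin 16 → Fin 16 :=
  ![![3,0,1,2,4,5,6,7,8,9,10,11,12,13,14,15],
    ![8,9,10,11,12,13,14,15,4,5,6,7,3,0,1,2],
    ![4,5,6,7,3,0,1,2,12,13,14,15,8,9,10,11],
    ![12,13,14,15,8,9,10,11,3,0,1,2,4,5,6,7],
    ![0,1,2,3,7,4,5,6,8,9,10,11,12,13,14,15],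
    ![8,9,10,11,12,13,14,15,7,4,5,6,0,1,2,3],
    ![7,4,5,6,0,1,2,3,12,13,14,15,8,9,10,11],
    ![12,13,14,15,8,9,10,11,0,1,2,3,7,4,5,6],
    ![0,1,2,3,4,5,6,7,11,8,9,10,12,13,14,15],
    ![11,8,9,10,12,13,14,15,4,5,6,7,0,1,2,3],
    ![4,5,6,7,0,1,2,3,12,13,14,15,11,8,9,10],
    ![12,13,14,15,11,8,9,10,0,1,2,3,4,5,6,7],
    ![0,1,2,3,4,5,6,7,8,9,10,11,15,12,13,14],
    ![8,9,10,11,15,12,13,14,4,5,6,7,0,1,2,3],
    ![4,5,6,7,0,1,2,3,15,12,13,14,8,9,10,11],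
    ![15,12,13,14,8,9,10,11,0,1,2,3,4,5,6,7]]

/-- Their inverses. -/
def si : Fin 16 → Fin 16 → Fin 16 :=
  ![![1,2,3,0,4,5,6,7,8,9,10,11,12,13,14,15],
    ![13,14,15,12,8,9,10,11,0,1,2,3,4,5,6,7],
    ![5,6,7,4,0,1,2,3,12,13,14,15,8,9,10,11],
    ![9,10,11,8,12,13,14,15,4,5,6,7,0,1,2,3],
    ![0,1,2,3,5,6,7,4,8,9,10,11,12,13,14,15],
    ![12,13,14,15,9,10,11,8,0,1,2,3,4,5,6,7],
    ![4,5,6,7,1,2,3,0,12,13,14,15,8,9,10,11],
    ![8,9,10,11,13,14,15,12,4,5,6,7,0,1,2,3],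
    ![0,1,2,3,4,5,6,7,9,10,11,8,12,13,14,15],
    ![12,13,14,15,8,9,10,11,1,2,3,0,4,5,6,7],
    ![4,5,6,7,0,1,2,3,13,14,15,12,8,9,10,11],
    ![8,9,10,11,12,13,14,15,5,6,7,4,0,1,2,3],
    ![0,1,2,3,4,5,6,7,8,9,10,11,13,14,15,12],
    ![12,13,14,15,8,9,10,11,0,1,2,3,5,6,7,4],
    ![4,5,6,7,0,1,2,3,12,13,14,15,9,10,11,8],
    ![8,9,10,11,12,13,14,15,4,5,6,7,1,2,3,0]]

/-- The solution on `Fin 16`. -/
def r0 (p : Fin 16 × Fin 16) : Fin 16 × Fin 16 := (s p.1 p.2, si (s p.1 p.2) p.1)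

/-- The identification with the product. -/
def e : Fin 2 × Fin 8 ≃ Fin 16 := finProdFinEquiv

/-- The solution on `Fin 2 × Fin 8`. -/
def r (p : (Fin 2 × Fin 8) × (Fin 2 × Fin 8)) : (Fin 2 × Fin 8) × (Fin 2 × Fin 8) :=
  Prod.map e.symm e.symm (r0 (Prod.map e e p))

/-- One derivation step for congruences. -/
def step (p : Fin 16 × Fin 16) (t : Fin 32) : Fin 16 × Fin 16 :=
  if t.val < 16 then (s (Fin.ofNat 16 t) p.1, s (Fin.ofNat 16 t) p.2)
  else (s p.1 (Fin.ofNat 16 t), s p.2 (Fin.ofNat 16 t))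

/-- Derivations of the pair `(0, 1)`. -/
def p1 : Fin 16 → Fin 16 → List (Fin 32) :=
  ![![[],[],[16,4,25],[16,12,25],[17],[4,17],[16,25],[0,25],[17],[16,25],[0,0,21],[0,25],[17],[12,17],[0,0,21],[0,25]],
    ![[16,16,17],[],[0],[16,25,7],[0,17],[29],[4,29],[28,25],[0,17],[29],[8,29],[0,0,25],[0,17],[29],[12,29],[0,0,25]],
    ![[16,16,17],[16,21,6],[],[0,0],[20,25],[0,29],[21],[4,21],[0,0,17],[0,29],[21],[20,25],[0,0,17],[0,29],[21],[12,21]],
    ![[0,0,0],[16,9,17],[16,5,17],[],[4,25],[24,25],[0,21],[25],[8,25],[0,0,29],[0,21],[25],[12,25],[0,0,29],[0,21],[25]],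
    ![[21,6],[16,17],[16,17],[16,17],[],[6],[16,0,25],[16,17],[21,6],[14,17],[16,17],[16,17],[21,6],[16,17],[16,17],[2,25]],
    ![[2,17],[25,6],[6,29],[28,17],[28,17],[],[2],[16,25,7],[2,17],[6,29],[14,29],[28,17],[2,17],[6,29],[10,29],[28,17]],
    ![[20,17],[2,29],[17,6],[20,17],[16,6,25],[20,17],[],[2,0],[20,17],[2,29],[17,6],[14,21],[20,17],[2,29],[17,6],[20,17]],
    ![[6,25],[24,17],[2,21],[10,25],[24,17],[16,9,17],[24,17],[],[14,25],[24,17],[2,21],[6,25],[24,17],[24,17],[2,21],[6,25]],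
    ![[7,17],[16,17],[16,17],[16,17],[7,17],[16,17],[16,0,25],[16,17],[],[7],[16,17],[16,17],[25,7],[16,17],[16,17],[3,25]],
    ![[3,17],[17,7],[28,17],[28,17],[3,17],[17,7],[11,29],[16,7,25],[28,17],[],[3],[28,17],[3,17],[17,7],[7,29],[28,17]],
    ![[20,17],[3,29],[7,21],[20,17],[16,21,6],[3,29],[7,21],[20,17],[20,17],[20,17],[],[3,0],[20,17],[3,29],[11,21],[20,17]],
    ![[24,17],[24,17],[3,21],[21,7],[24,17],[16,9,17],[3,21],[21,7],[16,5,17],[24,17],[24,17],[],[7,25],[24,17],[3,21],[21,7]],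
    ![[5,17],[16,17],[16,17],[16,17],[5,17],[16,17],[16,0,25],[16,17],[9,17],[5,17],[16,17],[16,17],[],[5],[16,17],[16,0,25]],
    ![[1,17],[5,29],[9,29],[28,17],[1,17],[5,29],[28,17],[16,25,7],[1,17],[21,5],[5,29],[28,17],[16,7,17],[],[1],[28,17]],
    ![[20,17],[1,29],[5,21],[20,17],[16,21,6],[1,29],[5,21],[20,17],[20,17],[1,29],[9,21],[5,21],[20,17],[16,21,6],[],[1,0]],
    ![[24,17],[24,17],[1,21],[17,5],[24,17],[16,5,25],[1,21],[17,5],[5,25],[24,17],[1,21],[17,5],[24,17],[24,17],[16,24,17],[]]]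

/-- Derivations from the pair `(0, 1)`. -/
def p2 : Fin 16 → List (Fin 32) :=
  ![[16,16,17],[],[0,0,0],[16,16,16],[16,6,20],[16,0,21],[16,0,22,0],[16,9,20],[16,25],[17],[18,0],[1,16],[28,16],[1,16,17],[28,24,15],[3,20,16]]

lemma hp1 : ∀ a b, a ≠ b → (p1 a b).foldl step (a, b) = (0, 1) := by decide +kernel
lemma hp2 : ∀ a, (p2 a).foldl step (0, 1) = (0, a) ∨ (p2 a).foldl step (0, 1) = (1, a) := by
  decide +kernel

lemma braid : ∀ x y z, let a := r0 (x, y); let b := r0 (a.2, z); let c := r0 (y, z)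
    let d := r0 (x, c.1); (r0 (a.1, b.1), b.2) = ((d.1, (r0 (d.2, c.2)).1), (r0 (d.2, c.2)).2) := by
  decide +kernel

lemma inv : ∀ x y, r0 (r0 (x, y)) = (x, y) := by decide +kernel
lemma bij1 : ∀ x, Bijective fun y => (r0 (x, y)).1 := by decide +kernel
lemma bij2 : ∀ y, Bijective fun x => (r0 (x, y)).2 := by decide +kernel
lemma blk : ∀ x y z, (r (x, y)).1.1 = (r (x, z)).1.1 ↔ y.1 = z.1 := by decide +kernel

theorem result : ∃ (Y Z : Type) (r : (Y × Z) × (Y × Z) → (Y × Z) × (Y × Z)),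
    Finite Y ∧ Finite Z ∧ 1 < Nat.card Y ∧ 1 < Nat.card Z ∧ IsSol r ∧ IsSimple r ∧ Blocks r ∧
      ¬ Nat.card Z ∣ Nat.card Y := by
  refine ⟨Fin 2, Fin 8, r, inferInstance, inferInstance, by simp, by simp,
    ⟨inferInstance, fun p => ?_, fun x => ?_, fun y => ?_, ?_⟩,
    ⟨inferInstance, fun X' r' f _ hf h => ?_⟩, fun g hg y => ?_, by simp⟩
  · simp [r, Prod.map, inv]
  · exact e.symm.bijective.comp ((bij1 (e x)).comp e.bijective)
  · exact e.symm.bijective.comp ((bij2 (e y)).comp e.bijective)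
  · dsimp only
    funext ⟨x, y, z⟩
    have := braid (e x) (e y) (e z)
    simp only [Prod.ext_iff] at this
    simp [this, r, Prod.map]
  · let F := f ∘ e.symm
    have h1 : ∀ x y, F (s x y) = (r' (F x, F y)).1 := fun x y => by
      simpa [r, r0, F] using congrArg Prod.fst (congrFun h (e.symm x, e.symm y))
    have h2 : ∀ (l : List (Fin 32)) (p : Fin 16 × Fin 16), F p.1 = F p.2 →
        F (l.foldl step p).1 = F (l.foldl step p).2 := fun l => by
      induction l with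
      | nil => exact fun _ h => h
      | cons t l ih =>
        refine fun p hp => ih _ ?_
        unfold step; split_ifs <;> simp only [h1, hp]
    refine or_iff_not_imp_left.2 fun hb => ?_
    obtain ⟨a, b, h3, h4⟩ := not_injective_iff.1 fun hi => hb ⟨hi, hf⟩
    have h5 := h2 (p1 (e a) (e b)) (e a, e b) (by simpa [F] using h3)
    rw [hp1 _ _ (e.injective.ne h4)] at h5
    have h6 : ∀ a, F a = F 0 := fun a => by
      have := h2 (p2 a) (0, 1) h5
      rcases hp2 a with h | h <;> rw [h] at this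
      exacts [this.symm, this.symm.trans h5.symm]
    refine Nat.card_eq_one_iff_exists.2 ⟨F 0, fun x => ?_⟩
    obtain ⟨x, rfl⟩ := hf x
    simpa [F] using h6 (e x)
  · have key : ∀ p q, (g p).1 = (g q).1 ↔ p.1 = q.1 := by
      induction hg using Subgroup.closure_induction with
      | mem g hg => obtain ⟨x, hx⟩ := hg; intro p q; rw [hx, hx, blk]
      | one => exact fun _ _ => Iff.rfl
      | mul g h _ _ hg hh => exact fun p q => (hg _ _).trans (hh _ _)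
      | inv g _ hg => intro p q; rw [← hg]; simp
    refine ⟨(g (y, 0)).1, Set.ext fun p => ⟨?_, fun hp => ⟨g.symm p, ?_, by simp⟩⟩⟩
    · rintro ⟨q, hq, rfl⟩
      exact (key _ _).2 hq
    · exact (key _ (y, 0)).1 (by simpa using hp)

end Pool.Agent.Results.MP_9f168b_al.Sixteen
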